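import Pool.Agent.H31.CKU

open Pool.Agent.H31.CKU

universe v

theorem Pool.Agent.Results.MP_041d76_gt.Neg.result :
    ∃ (I : Type) (T : I → Type) (_ : ∀ i, TopologicalSpace (T i)),
      (∀ i, InCM0.{0, 0} (T i) ∧ InCM.{0, 0} (T i)) ∧ ¬ InCM.{0, v} (Σ i, T i) :=
  no_sum
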